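import Pool.Agent.Y139.SM.GDefs

/-!
# Thin deviations of the Frobenius traces: definitions

`X` is a smooth projective variety over a number field `K`, of dimension `d`, `N` its `i`-th Betti number,
and `χ` a quadratic (or the trivial) character of the absolute Galois group of `K`.
-/

set_option autoImplicit false

namespace Pool.Agent.Y853.TZ

open NumberField IsDedekindDomain Polynomial

/-- The representation `χ^r ⊗ ψ`, for a character `χ` with values `±1`. -/
noncomputable def twist {K : Type} [Field K] (χ : Gal(AlgebraicClosure K/K) →* ℤˣ) (r : ℕ) {n : ℕ}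
    (ψ : Representation ℂ Gal(AlgebraicClosure K/K) (Fin n → ℂ)) :
    Representation ℂ Gal(AlgebraicClosure K/K) (Fin n → ℂ) where
  toFun g := (((χ g : ℤˣ) : ℤ) : ℂ) ^ r • ψ g
  map_one' := by simp
  map_mul' g h := by
    simp only [map_mul, Units.val_mul, Int.cast_mul, mul_pow]
    rw [smul_mul_smul_comm]

section
variable {K : Type} [Field K] [NumberField K]

open Classical in
/-- The Euler product `∏ B_v(q_v^{-s})⁻¹` over the primes `v` outside `S`. -/
noncomputable def LPart (S : Finset (HeightOneSpectrum (𝓞 K)))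
    (B : HeightOneSpectrum (𝓞 K) → ℂ[X]) (s : ℂ) : ℂ :=
  ∏' v : HeightOneSpectrum (𝓞 K), if v ∈ S then 1 else
    ((B v).eval ((Ideal.absNorm v.asIdeal : ℂ) ^ (-s)))⁻¹

open Classical in
/-- For a prime `v` outside `S` the absolute value of `q_v^{-i/2} tr(F_v | H^i(X)) + m χ(v)`, where
`α v` are the eigenvalues of the Frobenius `F_v` on `H^i(X)` and `c v = χ(v)`; it is `0` for `v` in `S`. -/
noncomputable def dev {N : ℕ} (S : Finset (HeightOneSpectrum (𝓞 K)))
    (α : HeightOneSpectrum (𝓞 K) → Fin N → ℂ) (i : ℕ) (c : HeightOneSpectrum (𝓞 K) → ℤˣ) (m : ℤ)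
    (v : HeightOneSpectrum (𝓞 K)) : ℝ :=
  if v ∈ S then 0 else
    ‖(∑ j, α v j) / (Ideal.absNorm v.asIdeal : ℂ) ^ ((i : ℂ) / 2) + m * ((c v : ℤ) : ℂ)‖

end

end Pool.Agent.Y853.TZ
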