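import Pool.Agent.Y853.TZ.Gen

/-! Euler products with arbitrary factors in a finite set, orders at a shifted point. -/

set_option autoImplicit false

namespace Pool.Agent.Y853.TZ

open Complex Filter Topology ComplexConjugate Pool.Agent.W540.BE Pool.Agent.Y792.FL Polynomial
open Pool.Agent.Y853.OP

set_option linter.unusedSectionVars false

variable {P : Type*} [DecidableEq P] {N : P → ℕ}

/-- the full Euler product -/
theorem euler_full (hN : NormSys N) {n m : ℕ} {S : Finset P} {γ : P → Fin n → ℂ}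
    {δ : P → Fin m → ℂ} (hb : ∀ v ∉ S, ∀ j l, ‖γ v j‖ * ‖δ v l‖ < N v)
    (hγ : ∀ σ : ℝ, 1 < σ → L2 (wt N σ) (coef N S γ 0))
    (hδ : ∀ σ : ℝ, 1 < σ → L2 (wt N σ) (coef N S δ 0)) (B : P → ℂ[X])
    (hB : ∀ v ∉ S, ∀ z : ℂ, (B v).eval z = ∏ j, ∏ l, (1 - γ v j * conj (δ v l) * z))
    {s : ℂ} (hs : 1 < s.re) :
    (∏' v, ((B v).eval (((N v : ℕ) : ℂ) ^ (-s)))⁻¹) =
      (∏ v ∈ S, ((B v).eval (((N v : ℕ) : ℂ) ^ (-s)))⁻¹) *
        E N (coef N S γ 0) (coef N S δ 0) s := by
  have hε : 0 < s.re - 1 := by linarith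
  have h1 := euler_eq hN hb hε (by rw [add_sub_cancel]; exact hγ _ hs)
    (by rw [add_sub_cancel]; exact hδ _ hs) s.im B hB
  have h2 : (1 + s.im * I + (s.re - 1 : ℝ) : ℂ) = s := by
    apply Complex.ext <;> simp
  rw [h2] at h1
  rw [h1]
  congr 1
  unfold E Z
  congr 1
  refine tsum_congr fun x => ?_
  have h5 := W_shift hN S γ δ 0 s.im ((s.re : ℝ) : ℂ) x
  rw [W_ofReal] at h5
  have h6 : (((s.re : ℝ) : ℂ) + ((s.im : ℝ) - ((0 : ℝ) : ℂ)) * I) = s := by
    apply Complex.ext <;> simp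
  rw [h6] at h5
  have h7 : (1 + (s.re - 1) : ℝ) = s.re := by ring
  rw [h7, h5]

/-- orders at `1 + w` -/
theorem order_shift (L : ℂ → ℂ) (w : ℝ) (d : ℤ) :
    (∃ Λ : ℂ → ℂ, MeromorphicAt Λ (1 + w) ∧
      (∀ᶠ s in 𝓝 ((1 : ℂ) + w), w + 1 < s.re → Λ s = L s) ∧
      meromorphicOrderAt Λ (1 + w) = d) ↔ Loc (fun s => L (s + w)) d := by
  have ht : Tendsto (fun s : ℂ => s + w) (𝓝 1) (𝓝 (1 + w)) :=
    (continuous_id.add continuous_const).tendsto 1
  have ht' : Tendsto (fun s : ℂ => s - w) (𝓝 (1 + w)) (𝓝 1) := by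
    have h : Continuous fun s : ℂ => s - w := by fun_prop
    have := h.tendsto (1 + (w : ℂ))
    simpa using this
  constructor
  · rintro ⟨Λ, h1, h2, h3⟩
    obtain ⟨g, g1, g2, g3⟩ := (meromorphicOrderAt_eq_int_iff h1).1 h3
    refine ⟨fun s => g (s + w), ?_, g2, ?_⟩
    · exact AnalyticAt.comp' (g := g) (f := fun s : ℂ => s + w) g1
        (analyticAt_id.add analyticAt_const)
    · rw [eventually_nhdsWithin_iff] at g3
      filter_upwards [ht.eventually h2, ht.eventually g3] with s h4 h5 h6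
      rw [← h4 (by simp; linarith)]
      have h7 : s + w ∈ ({1 + (w : ℂ)}ᶜ : Set ℂ) := by
        rw [Set.mem_compl_singleton_iff]
        intro h8
        exact ne_of_re h6 (by linear_combination h8)
      rw [h5 h7, smul_eq_mul]
      congr 2
      ring
  · rintro ⟨g, g1, g2, g3⟩
    have hg : AnalyticAt ℂ (fun s => g (s - w)) (1 + w) := by
      refine AnalyticAt.comp' (g := g) (f := fun s : ℂ => s - w) ?_
        (analyticAt_id.sub analyticAt_const)
      simpa using g1
    have hm : MeromorphicAt (fun s : ℂ => (s - (1 + w)) ^ d * g (s - w)) (1 + w) :=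
      (((analyticAt_id.sub analyticAt_const).meromorphicAt).zpow d).mul hg.meromorphicAt
    refine ⟨fun s => (s - (1 + w)) ^ d * g (s - w), hm, ?_, ?_⟩
    · filter_upwards [ht'.eventually g3] with s h4 h5
      have h6 := h4 (by simp; linarith)
      rw [sub_add_cancel] at h6
      rw [h6]
      congr 2
      ring
    · rw [meromorphicOrderAt_eq_int_iff hm]
      refine ⟨_, hg, ?_, Eventually.of_forall fun s => ?_⟩
      · simpa using g2
      · simp

/-- a factor without zeros and poles does not change the order -/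
theorem loc_mul_iff {F G h : ℂ → ℂ} {d : ℤ} (ha : AnalyticAt ℂ h 1) (h0 : h 1 ≠ 0)
    (hFG : ∀ s : ℂ, 1 < s.re → F s = h s * G s) : Loc F d ↔ Loc G d := by
  have h1 : Loc h 0 := loc_zero ha h0
  constructor
  · intro hF
    have h2 := (h1.zpow (-1)).mul hF
    rw [zero_mul, zero_add] at h2
    refine h2.congr ?_
    filter_upwards [ha.continuousAt.eventually_ne h0] with s h3 h4
    rw [hFG s h4, zpow_neg_one, ← mul_assoc, inv_mul_cancel₀ h3, one_mul]
  · intro hG
    have h2 := h1.mul hG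
    rw [zero_add] at h2
    exact h2.congr (Eventually.of_forall fun s h4 => hFG s h4)

end Pool.Agent.Y853.TZ
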