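import Pool.Agent.Y853.TZ.Main

/-! The equivalence. -/

set_option autoImplicit false

namespace Pool.Agent.Y853.TZ

open Complex Filter Topology ComplexConjugate NumberField IsDedekindDomain
  Pool.Agent.W401.Cheb Pool.Agent.W540.BE Pool.Agent.Y792.FL Polynomial Pool.Agent.Y853.OP
open Pool.Agent.W353.EF (LFun IsFrobenius)
open Pool.Agent.W353.EH (edgePoint HasOrder)
open Pool.Agent.W353.AT (IsArtin exists_common)
open Pool.Agent.W353.PV (Eig pick pick_spec)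
open Pool.Agent.Y139.SM (IsPowerSystem prods prods_sum prods_prod)

section
variable {K : Type} [Field K] [NumberField K]
variable {l : ℕ} {X : Set (MvPolynomial (Fin l) (𝓞 K))} {d i N : ℕ}

/-- **The equivalence.** -/
theorem tfae (hi : i ≤ 2 * d) {σ : HeightOneSpectrum (𝓞 K) → GK K} (hσ : ∀ v, IsFrob v (σ v))
    {S₀ : Finset (HeightOneSpectrum (𝓞 K))} {α : HeightOneSpectrum (𝓞 K) → Fin N → ℂ}
    (hα : ∀ v ∉ S₀, IsFrobenius X d i v (α v))
    {χ : GK K →* ℤˣ} {c : HeightOneSpectrum (𝓞 K) → ℤˣ}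
    (hc : ∀ v ∉ S₀, ∀ σ, IsFrob v σ → χ σ = c v) (m : ℤ)
    {B₁ B₂ : HeightOneSpectrum (𝓞 K) → ℂ[X]}
    (hB₁ : IsPowerSystem X d i N 1
      (twist χ 1 (1 : Representation ℂ (GK K) (Fin 1 → ℂ))) B₁)
    (hB₂ : IsPowerSystem X d i N 2 (1 : Representation ℂ (GK K) (Fin 1 → ℂ)) B₂) :
    [∃ k : ℤ, -m ^ 2 ≤ k ∧ HasOrder (2 * i) 0 B₂ k ∧ HasOrder (1 * i) 0 B₁ m,
      HasOrder (2 * i) 0 B₂ (-m ^ 2) ∧ HasOrder (1 * i) 0 B₁ m,
      ∃ R : ℂ → ℂ, AnalyticAt ℂ R 1 ∧ ∀ᶠ s in 𝓝 (1 : ℂ), 1 < s.re →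
        R s = LFun B₂ (s + i) * LFun B₁ (s + (i : ℂ) / 2) ^ (2 * m) * dedekindZeta K s ^ (m ^ 2),
      ∃ θ : ℝ, θ < 1 ∧ Summable fun v => dev S₀ α i c m v ^ 2 * (nm K v : ℝ) ^ (-θ)].TFAE := by
  classical
  have hN : NormSys (nm K) := normSys
  have hcc : (fun (v : HeightOneSpectrum (𝓞 K)) (_ : Fin 1) => cc χ σ v 0 ^ 1 * 1) = cc χ σ := by
    funext v j
    unfold cc
    simp
  have hη1 := det_twist χ 1 (1 : Representation ℂ (GK K) (Fin 1 → ℂ)) (σ := σ)
    (η := fun _ _ => 1) (fun v c => det_one c _)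
  obtain ⟨S₁, h1, h2⟩ := sys hi hσ hα 1 _ B₁ hB₁ (η := cc χ σ) (cc_norm χ σ) (by
    intro v c
    rw [hη1 v c]
    refine Finset.prod_congr rfl fun l _ => ?_
    have : cc χ σ v 0 ^ 1 * 1 = cc χ σ v l := congrFun (congrFun hcc v) l
    rw [this])
  obtain ⟨S₂, h3, h4⟩ := sys hi hσ hα 2 _ B₂ hB₂ (η := fun _ _ => 1) (fun v l => norm_one)
    (fun v c => det_one c _)
  set S := S₁ ∪ S₂ with hSdef
  have hS0 : S₀ ⊆ S := h1.trans Finset.subset_union_left
  set f : HeightOneSpectrum (𝓞 K) × ℕ → ℂ := PS S (nrm i α) with hf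
  set u : HeightOneSpectrum (𝓞 K) × ℕ → ℂ := PS S (cc χ σ) with hu
  have hgood : ∀ v ∉ S, Eig X d i v (α v) := fun v hv => hα v fun h => hv (hS0 h)
  have hcf : ∀ x, conj (f x) = f x := by
    intro x
    rw [hf]
    unfold PS
    split_ifs with hx
    · simp
    · exact pw_real hi (hgood _ hx) _
  have hcu : ∀ x, conj (u x) = u x := by
    intro x
    rw [hu]
    unfold PS pw
    split_ifs with hx
    · simp
    · rw [map_sum]
      refine Finset.sum_congr rfl fun j _ => ?_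
      rw [map_pow, cc_real]
  have hbf : ∀ x, ‖f x‖ ≤ N := PS_le fun v hv j => nrm_one (hgood v hv) j
  have hbu : ∀ x, ‖u x‖ ≤ ((1 : ℕ) : ℝ) := PS_le fun v _ j => cc_norm χ σ v j
  have hf2 : ∀ τ : ℝ, 1 < τ → L2 (wt (nm K) τ) f := fun τ h => bdd_L2 hN hbf h
  have hu2 : ∀ p ∈ ({()} : Finset Unit), ∀ τ : ℝ, 1 < τ → L2 (wt (nm K) τ) ((fun _ => u) p) :=
    fun _ _ τ h => bdd_L2 hN hbu h
  -- the three products
  have k1 : ∀ s : ℂ, 1 < s.re → LFun B₁ (s + (1 : ℕ) * ((i : ℂ) / 2)) =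
      hb B₁ ((1 : ℕ) * ((i : ℂ) / 2)) S s * E (nm K) f u s := by
    intro s hs
    have h5 := (h2 S Finset.subset_union_left s hs).2
    rw [h5]
    unfold hb E
    congr 3
    funext x
    rw [hcu, pow_one]
  have k2 : ∀ s : ℂ, 1 < s.re → LFun B₂ (s + (2 : ℕ) * ((i : ℂ) / 2)) =
      hb B₂ ((2 : ℕ) * ((i : ℂ) / 2)) S s * E (nm K) f f s := by
    intro s hs
    have h5 := (h4 S Finset.subset_union_right s hs).2
    rw [h5]
    unfold hb E
    congr 3
    funext x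
    rw [hcf, hf]
    unfold PS
    by_cases hx : x.1 ∈ S
    · simp [hx]
    · simp only [if_neg hx]
      unfold pw
      simp [sq]
  have k3 : ∀ s : ℂ, E (nm K) u u s =
      cexp (Z (nm K) (fun x => PS S (fun _ (_ : Fin 1) => (1 : ℂ)) x) s) := by
    intro s
    unfold E
    congr 2
    funext x
    rw [hcu, hu]
    unfold PS pw
    by_cases hx : x.1 ∈ S
    · simp [hx]
    · simp only [if_neg hx, Finset.univ_unique, Finset.sum_singleton, one_pow]
      rw [← mul_pow, cc_sq, one_pow]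
  have k4 : ∀ s : ℂ, E (nm K) u f s = E (nm K) f u s := by
    intro s
    unfold E
    congr 2
    funext x
    rw [hcu, hcf, mul_comm]
  have o1 : ∀ k, HasOrder (1 * i) 0 B₁ k ↔ Loc (E (nm K) f u) k := fun k => order_sys hB₁ S k1 k
  have o2 : ∀ k, HasOrder (2 * i) 0 B₂ k ↔ Loc (E (nm K) f f) k := fun k => order_sys hB₂ S k2 k
  have o3 : ∀ p ∈ ({()} : Finset Unit), ∀ r ∈ ({()} : Finset Unit),
      Loc (E (nm K) ((fun _ => u) p) ((fun _ => u) r)) (if p = r then -1 else 0) := by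
    intro p _ r _
    rw [if_pos (Subsingleton.elim p r)]
    exact (loc_zeta S).congr (Eventually.of_forall fun s _ => k3 s)
  have hsum : ∀ x, f x - ∑ p ∈ ({()} : Finset Unit), (((fun _ => -m) p : ℤ) : ℂ) * u x =
      f x + m * u x := by
    intro x
    simp
  have hthin : (∃ θ : ℝ, θ < 1 ∧ L2 (wt (nm K) θ) (fun x => f x -
      ∑ p ∈ ({()} : Finset Unit), (((fun _ => -m) p : ℤ) : ℂ) * (fun _ => u) p x)) ↔
      ∃ θ : ℝ, θ < 1 ∧ Summable fun v => dev S₀ α i c m v ^ 2 * (nm K v : ℝ) ^ (-θ) := by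
    have hbd : ∀ x, ‖f x + m * u x‖ ≤ N + |(m : ℝ)| * ((1 : ℕ) : ℝ) := by
      intro x
      refine (norm_add_le _ _).trans (add_le_add (hbf x) ?_)
      rw [norm_mul]
      have : ‖((m : ℤ) : ℂ)‖ = |(m : ℝ)| := by simp
      rw [this]
      exact mul_le_mul_of_nonneg_left (hbu x) (abs_nonneg _)
    simp only [hsum]
    constructor
    · rintro ⟨θ, h5, h6⟩
      refine ⟨max θ (3 / 4), max_lt h5 (by norm_num), ?_⟩
      rw [thin_iff hσ α hc m hS0, ← L2_iff hN hbd (lt_of_lt_of_le (by norm_num) (le_max_right _ _))]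
      exact Pool.Agent.Y853.OP.L2.mono hN h6 (le_max_left _ _)
    · rintro ⟨θ, h5, h6⟩
      refine ⟨max θ (3 / 4), max_lt h5 (by norm_num), ?_⟩
      rw [L2_iff hN hbd (lt_of_lt_of_le (by norm_num) (le_max_right _ _))]
      rw [thin_iff hσ α hc m hS0] at h6
      refine Summable.of_nonneg_of_le (fun v => by positivity) (fun v => ?_) h6
      refine mul_le_mul_of_nonneg_left ?_ (sq_nonneg _)
      refine Real.rpow_le_rpow_of_exponent_le ?_ (neg_le_neg (le_max_left _ _))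
      have := two_le_nm v
      exact_mod_cast (by omega : 1 ≤ nm K v)
  tfae_have 2 → 1 := fun h => ⟨_, le_rfl, h⟩
  tfae_have 1 → 4 := by
    rintro ⟨k, g1, g2, g3⟩
    rw [← hthin]
    refine loc_land (T := {()}) (u := fun _ => u) hN hf2 hu2 (fun _ => -m) (M := -k) ?_ ?_ ?_ o3
    · simp only [Finset.sum_singleton, neg_sq]
      linarith
    · rw [neg_neg]
      exact (o2 k).1 g2
    · intro p _
      rw [neg_neg]
      exact (o1 m).1 g3
  tfae_have 4 → 2 := by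
    intro h
    rw [← hthin] at h
    obtain ⟨θ, g1, g2⟩ := h
    obtain ⟨g3, g4⟩ := loc_conv (T := {()}) (u := fun _ => u) hN hf2 hu2 (fun _ => -m) g1 g2 o3
    refine ⟨(o2 _).2 ?_, (o1 _).2 ?_⟩
    · simpa using g3
    · have := g4 () (Finset.mem_singleton_self _)
      rwa [neg_neg] at this
  tfae_have 3 ↔ 4 := by
    rw [← hthin]
    have hLD : ∀ s : ℂ, 1 < s.re →
        (fun s => E (nm K) f f s * E (nm K) f u s ^ (2 * m) * E (nm K) u u s ^ (m ^ 2)) s =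
        cexp (Z (nm K) (fun x => ((‖f x - ∑ p ∈ ({()} : Finset Unit),
          (((fun _ => -m) p : ℤ) : ℂ) * (fun _ => u) p x‖ ^ 2 : ℝ) : ℂ)) s) := by
      intro s hs
      rw [exp_e (T := {()}) (u := fun _ => u) hN hf2 hu2 (fun _ => -m) hs]
      simp only [Finset.prod_singleton, neg_neg, neg_mul_neg, k4]
      rw [two_mul m, zpow_add₀ (E_ne f u s), ← sq m]
      ring
    rw [← point_iff (T := {()}) (u := fun _ => u) hN hf2 hu2 (fun _ => -m) hLD]
    refine cont_mul_iff (h := fun s => hb B₂ ((2 : ℕ) * ((i : ℂ) / 2)) S s *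
      hb B₁ ((1 : ℕ) * ((i : ℂ) / 2)) S s ^ (2 * m) * (hz S s)⁻¹ ^ (m ^ 2)) ?_ ?_ ?_
    · exact ((hb_an hB₂ S).mul ((hb_an hB₁ S).zpow (hb_ne hB₁ S))).mul
        (((hz_an S).inv (hz_ne S (by simp))).zpow (inv_ne_zero (hz_ne S (by simp))))
    · exact mul_ne_zero (mul_ne_zero (hb_ne hB₂ S) (zpow_ne_zero _ (hb_ne hB₁ S)))
        (zpow_ne_zero _ (inv_ne_zero (hz_ne S (by simp))))
    · intro s hs
      have a1 := k1 s hs
      have a2 := k2 s hs
      have a3 := zeta_exp S hs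
      rw [← k3] at a3
      have e1 : s + (1 : ℕ) * ((i : ℂ) / 2) = s + (i : ℂ) / 2 := by push_cast; ring
      have e2 : s + (2 : ℕ) * ((i : ℂ) / 2) = s + i := by push_cast; ring
      rw [e1] at a1
      rw [e2] at a2
      have a4 : dedekindZeta K s = (hz S s)⁻¹ * E (nm K) u u s := by
        rw [a3, ← mul_assoc, inv_mul_cancel₀ (hz_ne S hs.le), one_mul]
      rw [a1, a2, a4, mul_zpow, mul_zpow]
      ring
  tfae_finish

end

end Pool.Agent.Y853.TZ
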