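import Pool.Agent.Y853.OP.Fin

/-! Bounded coefficients and powers. -/

set_option autoImplicit false

namespace Pool.Agent.Y853.TZ

open Complex Filter Topology ComplexConjugate Pool.Agent.W540.BE Pool.Agent.Y792.FL
open Pool.Agent.Y853.OP

set_option linter.unusedSectionVars false

variable {P : Type*} [DecidableEq P] {N : P → ℕ}

theorem wt_le_geo (hN : NormSys N) {σ : ℝ} (hσ : 0 < σ) (j : ℕ) (v : P) (k : ℕ) :
    wt N σ (v, k + j) ≤ (N v : ℝ) ^ (-((j + 1) * σ)) * ((2 : ℝ) ^ (-σ)) ^ k := by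
  unfold wt
  have h2 : (2 : ℝ) ≤ N v := by exact_mod_cast hN.two_le v
  have h0 : (0 : ℝ) < N v := by linarith
  have h1 : (N v : ℝ) ^ (-((((k + j : ℕ) : ℝ) + 1) * σ)) =
      (N v : ℝ) ^ (-((j + 1) * σ)) * ((N v : ℝ) ^ (-σ)) ^ k := by
    rw [← Real.rpow_natCast, ← Real.rpow_mul h0.le, ← Real.rpow_add h0]
    congr 1
    push_cast
    ring
  have h3 : ((N v : ℝ) ^ (-σ)) ^ k ≤ ((2 : ℝ) ^ (-σ)) ^ k :=
    pow_le_pow_left₀ (by positivity)
      (Real.rpow_le_rpow_of_nonpos (by norm_num) h2 (by linarith)) k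
  have h4 : (1 : ℝ) ≤ ((k + j : ℕ) : ℝ) + 1 := by
    have : (0 : ℝ) ≤ ((k + j : ℕ) : ℝ) := Nat.cast_nonneg _
    linarith
  refine (div_le_self (by positivity) h4).trans ?_
  simp only
  rw [h1]
  exact mul_le_mul_of_nonneg_left h3 (by positivity)

theorem geo_summable (hN : NormSys N) {σ : ℝ} (hσ : 0 < σ) (j : ℕ) (h : 1 < (j + 1) * σ) :
    Summable fun x : P × ℕ => wt N σ (x.1, x.2 + j) := by
  have h1 := hN.summable (-((j + 1) * σ)) (by linarith)
  have h2 : Summable fun k : ℕ => ((2 : ℝ) ^ (-σ)) ^ k := by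
    refine summable_geometric_of_lt_one (by positivity) ?_
    exact Real.rpow_lt_one_of_one_lt_of_neg (by norm_num) (by linarith)
  refine Summable.of_nonneg_of_le (fun x => wt_nonneg _ _) (fun x => wt_le_geo hN hσ j x.1 x.2) ?_
  exact h1.mul_of_nonneg h2 (fun v => by positivity) fun k => by positivity

theorem wt_summable (hN : NormSys N) {σ : ℝ} (hσ : 1 < σ) : Summable fun x => wt N σ x := by
  have := geo_summable hN (σ := σ) (by linarith) 0 (by simpa using hσ)
  simpa using this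

/-- bounded coefficients -/
theorem bdd_sm (hN : NormSys N) {f : P × ℕ → ℂ} {C : ℝ} (hf : ∀ x, ‖f x‖ ≤ C) {σ : ℝ}
    (hσ : 1 < σ) : Sm N σ f :=
  Summable.of_nonneg_of_le (fun x => mul_nonneg (wt_nonneg _ _) (norm_nonneg _))
    (fun x => mul_le_mul_of_nonneg_left (hf x) (wt_nonneg _ _)) ((wt_summable hN hσ).mul_right C)

theorem bdd_L2 (hN : NormSys N) {f : P × ℕ → ℂ} {C : ℝ} (hf : ∀ x, ‖f x‖ ≤ C) {σ : ℝ}
    (hσ : 1 < σ) : L2 (wt N σ) f :=
  Summable.of_nonneg_of_le (fun x => mul_nonneg (wt_nonneg _ _) (sq_nonneg _))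
    (fun x => mul_le_mul_of_nonneg_left (pow_le_pow_left₀ (norm_nonneg _) (hf x) 2) (wt_nonneg _ _))
    ((wt_summable hN hσ).mul_right (C ^ 2))

theorem wt_zero (σ : ℝ) (v : P) : wt N σ (v, 0) = (N v : ℝ) ^ (-σ) := by
  unfold wt
  simp

/-- only the primes matter -/
theorem L2_iff (hN : NormSys N) {f : P × ℕ → ℂ} {C : ℝ} (hf : ∀ x, ‖f x‖ ≤ C) {σ : ℝ}
    (hσ : 1 / 2 < σ) :
    L2 (wt N σ) f ↔ Summable fun v => ‖f (v, 0)‖ ^ 2 * (N v : ℝ) ^ (-σ) := by
  have hinj : Function.Injective fun v : P => ((v, 0) : P × ℕ) := fun a b h => by simpa using h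
  constructor
  · intro h
    refine ((h.comp_injective hinj)).congr fun v => ?_
    simp only [Function.comp]
    rw [wt_zero, mul_comm]
  · intro h
    have h1 : Summable fun x : P × ℕ => wt N σ (x.1, x.2 + 1) * ‖f (x.1, x.2 + 1)‖ ^ 2 := by
      refine Summable.of_nonneg_of_le (fun x => mul_nonneg (wt_nonneg _ _) (sq_nonneg _))
        (fun x => mul_le_mul_of_nonneg_left (pow_le_pow_left₀ (norm_nonneg _) (hf _) 2)
          (wt_nonneg _ _)) ((geo_summable hN (by linarith) 1 ?_).mul_right (C ^ 2))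
      push_cast
      linarith
    have h2 : Summable fun x : P × ℕ => if x.2 = 0 then wt N σ x * ‖f x‖ ^ 2 else 0 := by
      rw [← hinj.summable_iff]
      · refine h.congr fun v => ?_
        simp only [Function.comp, if_true]
        rw [wt_zero, mul_comm]
      · intro x hx
        rw [if_neg]
        intro h0
        exact hx ⟨x.1, by rw [← h0]⟩
    have hinj2 : Function.Injective fun x : P × ℕ => ((x.1, x.2 + 1) : P × ℕ) := by
      rintro ⟨a, b⟩ ⟨c, d⟩ h
      simpa using h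
    have h3 : Summable fun x : P × ℕ => if x.2 = 0 then 0 else wt N σ x * ‖f x‖ ^ 2 := by
      rw [← hinj2.summable_iff]
      · refine h1.congr fun x => ?_
        simp [Function.comp]
      · intro x hx
        rw [if_pos]
        by_contra h0
        refine hx ⟨(x.1, x.2 - 1), ?_⟩
        ext
        · rfl
        · simp only
          omega
    refine (h2.add h3).congr fun x => ?_
    by_cases h0 : x.2 = 0
    · rw [if_pos h0, if_pos h0, add_zero]
    · rw [if_neg h0, if_neg h0, zero_add]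

/-- **The powers.** -/
theorem pow_formula (hN : NormSys N) {t c e : P × ℕ → ℂ} {C : ℝ} (ht : ∀ x, ‖t x‖ ≤ C)
    (hc : ∀ x, ‖c x‖ ≤ C) (he : ∀ x, ‖e x‖ ≤ C) {m : ℤ} {θ : ℝ} (hθ : 1 / 2 ≤ θ)
    (hw : Summable fun v => ‖t (v, 0) + m * c (v, 0)‖ ^ 2 * (N v : ℝ) ^ (-θ)) (r : ℕ) :
    ∃ H : ℂ → ℂ, DifferentiableOn ℂ H {s : ℂ | (1 + θ) / 2 < s.re} ∧ (∀ s, H s ≠ 0) ∧
      ∀ s : ℂ, 1 < s.re → cexp (Z N (fun x => t x ^ r * e x) s) =
        H s * cexp (Z N (fun x => c x ^ r * e x) s) ^ ((-m) ^ r) := by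
  have hC : 0 ≤ C ∨ IsEmpty (P × ℕ) := by
    by_cases h : Nonempty (P × ℕ)
    · obtain ⟨x⟩ := h
      exact Or.inl ((norm_nonneg _).trans (ht x))
    · exact Or.inr (not_nonempty_iff.1 h)
  set D : ℝ := |C| with hD
  have hCD : C ≤ D := le_abs_self _
  have hD0 : 0 ≤ D := abs_nonneg _
  have ht' : ∀ x, ‖t x‖ ≤ D := fun x => (ht x).trans hCD
  have hc' : ∀ x, ‖c x‖ ≤ D := fun x => (hc x).trans hCD
  have he' : ∀ x, ‖e x‖ ≤ D := fun x => (he x).trans hCD
  set w : P × ℕ → ℂ := fun x => t x + m * c x with hwdef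
  set G : P × ℕ → ℂ := fun x => (∑ j ∈ Finset.range r, t x ^ j * (-(m : ℂ) * c x) ^ (r - 1 - j)) *
    e x with hG
  have hwb : ∀ x, ‖w x‖ ≤ D + |(m : ℝ)| * D := by
    intro x
    refine (norm_add_le _ _).trans (add_le_add (ht' x) ?_)
    rw [norm_mul]
    have : ‖((m : ℤ) : ℂ)‖ = |(m : ℝ)| := by simp
    rw [this]
    exact mul_le_mul_of_nonneg_left (hc' x) (abs_nonneg _)
  obtain ⟨B, hB⟩ : ∃ B : ℝ, ∀ x, ‖G x‖ ≤ B := by
    refine ⟨(∑ j ∈ Finset.range r, D ^ j * (|(m : ℝ)| * D) ^ (r - 1 - j)) * D, fun x => ?_⟩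
    rw [hG]
    simp only
    rw [norm_mul]
    refine mul_le_mul ?_ (he' x) (norm_nonneg _) (Finset.sum_nonneg fun j _ => by positivity)
    refine (norm_sum_le _ _).trans (Finset.sum_le_sum fun j _ => ?_)
    rw [norm_mul, norm_pow, norm_pow, norm_mul, norm_neg]
    have : ‖((m : ℤ) : ℂ)‖ = |(m : ℝ)| := by simp
    rw [this]
    exact mul_le_mul (pow_le_pow_left₀ (norm_nonneg _) (ht' x) _)
      (pow_le_pow_left₀ (by positivity) (mul_le_mul_of_nonneg_left (hc' x) (abs_nonneg _)) _)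
      (by positivity) (by positivity)
  have hGc : ∀ x, ‖conj (G x)‖ ≤ B := fun x => by rw [Complex.norm_conj]; exact hB x
  have hL : ∀ θ', θ < θ' → L2 (wt N θ') w := by
    intro θ' h
    rw [L2_iff hN hwb (by linarith)]
    refine Summable.of_nonneg_of_le (fun v => by positivity) (fun v => ?_) hw
    refine mul_le_mul_of_nonneg_left ?_ (sq_nonneg _)
    refine Real.rpow_le_rpow_of_exponent_le ?_ (by linarith)
    have := hN.two_le v
    exact_mod_cast (by omega : 1 ≤ N v)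
  have hsm : ∀ σ, (1 + θ) / 2 < σ → Sm N σ (fun x => w x * G x) := by
    intro σ hσ
    have h1 := sm_of_L2 hN (hL ((2 * σ - 1 + θ) / 2) (by linarith))
      (bdd_L2 hN hGc (σ := 2 * σ - (2 * σ - 1 + θ) / 2) (by linarith))
    have h2 : ((2 * σ - 1 + θ) / 2 + (2 * σ - (2 * σ - 1 + θ) / 2)) / 2 = σ := by ring
    rw [h2] at h1
    simpa using h1
  by_cases hθ1 : 1 ≤ θ
  · -- trivial region
    refine ⟨fun s => cexp (Z N (fun x => w x * G x) s), (Z_diff hN hsm).cexp,
      fun s => Complex.exp_ne_zero _, fun s hs => ?_⟩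
    have hsm' : Sm N s.re (fun x => w x * G x) := by
      refine bdd_sm hN (C := (D + |(m : ℝ)| * D) * B) (fun x => ?_) hs
      rw [norm_mul]
      exact mul_le_mul (hwb x) (hB x) (norm_nonneg _) (by positivity)
    have h3 : (fun x => t x ^ r * e x) = fun x => w x * G x +
        (((-m) ^ r : ℤ) : ℂ) * (c x ^ r * e x) := by
      funext x
      have h4 := (Commute.all (t x) (-(m : ℂ) * c x)).geom_sum₂_mul r
      rw [hwdef, hG]
      simp only
      push_cast
      linear_combination (-(e x)) * h4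
    have hsc : Sm N s.re (fun x => c x ^ r * e x) := by
      refine bdd_sm hN (C := D ^ r * D) (fun x => ?_) hs
      rw [norm_mul, norm_pow]
      exact mul_le_mul (pow_le_pow_left₀ (norm_nonneg _) (hc' x) _) (he' x) (norm_nonneg _)
        (by positivity)
    rw [h3, Z_add hN hsm' (hsc.smul _) le_rfl, Z_smul, Complex.exp_add, Complex.exp_int_mul]
  · push Not at hθ1
    refine ⟨fun s => cexp (Z N (fun x => w x * G x) s), (Z_diff hN hsm).cexp,
      fun s => Complex.exp_ne_zero _, fun s hs => ?_⟩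
    have h3 : (fun x => t x ^ r * e x) = fun x => w x * G x +
        (((-m) ^ r : ℤ) : ℂ) * (c x ^ r * e x) := by
      funext x
      have h4 := (Commute.all (t x) (-(m : ℂ) * c x)).geom_sum₂_mul r
      rw [hwdef, hG]
      simp only
      push_cast
      linear_combination (-(e x)) * h4
    have hsc : Sm N s.re (fun x => c x ^ r * e x) := by
      refine bdd_sm hN (C := D ^ r * D) (fun x => ?_) hs
      rw [norm_mul, norm_pow]
      exact mul_le_mul (pow_le_pow_left₀ (norm_nonneg _) (hc' x) _) (he' x) (norm_nonneg _)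
        (by positivity)
    rw [h3, Z_add hN (hsm s.re (by linarith)) (hsc.smul _) le_rfl, Z_smul, Complex.exp_add,
      Complex.exp_int_mul]

end Pool.Agent.Y853.TZ
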