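import Pool.Agent.Y853.TZ.Zeta

/-! The main theorems. -/

set_option autoImplicit false

namespace Pool.Agent.Y853.TZ

open Complex Filter Topology ComplexConjugate NumberField IsDedekindDomain
  Pool.Agent.W401.Cheb Pool.Agent.W540.BE Pool.Agent.Y792.FL Polynomial Pool.Agent.Y853.OP
open Pool.Agent.W353.EF (LFun IsFrobenius)
open Pool.Agent.W353.EH (edgePoint HasOrder)
open Pool.Agent.W353.AT (IsArtin exists_common)
open Pool.Agent.W353.PV (Eig pick pick_spec)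
open Pool.Agent.Y139.SM (IsPowerSystem prods prods_sum prods_prod)

theorem exists_fun (s : Multiset ℂ) {n : ℕ} (h : s.card = n) :
    ∃ η : Fin n → ℂ, Finset.univ.val.map η = s := by
  have hl : s.toList.length = n := by rw [Multiset.length_toList, h]
  subst hl
  exact ⟨s.toList.get, by rw [Fin.univ_val_map, List.ofFn_get, Multiset.coe_toList]⟩

section
variable {K : Type} [Field K] [NumberField K]

/-- eigenvalues of an Artin representation -/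
theorem exists_eta {n' : ℕ} (ψ : Representation ℂ (GK K) (Fin n' → ℂ)) (hψ : IsArtin ψ)
    (σ : HeightOneSpectrum (𝓞 K) → GK K) :
    ∃ η : HeightOneSpectrum (𝓞 K) → Fin n' → ℂ, (∀ v l, ‖η v l‖ = 1) ∧
      ∀ v, ∀ c : ℂ, LinearMap.det (1 - c • ψ (σ v)⁻¹) = ∏ l, (1 - c * η v l) := by
  classical
  obtain ⟨U, hUn, hU, hx1⟩ := exists_common (κ := Unit) (n := fun _ => n')
    (fun _ => ψ) fun _ => hψ
  have hx1 : ∀ u ∈ U, ψ u = 1 := hx1 ()
  have hfin : Finite (GK K ⧸ U) := Subgroup.quotient_finite_of_isOpen U hU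
  have key : ∀ v : HeightOneSpectrum (𝓞 K), ∃ η : Fin n' → ℂ, (∀ l, ‖η l‖ = 1) ∧
      ∀ c : ℂ, LinearMap.det (1 - c • ψ (σ v)⁻¹) = ∏ l, (1 - c * η l) := by
    intro v
    obtain ⟨s, h1, h2, -, h4⟩ := exists_eigs (ψ (σ v)⁻¹) (m := Nat.card (GK K ⧸ U)) Nat.card_pos
      (rho_pow U ψ hx1 _)
    obtain ⟨η, hη⟩ := exists_fun s h1
    refine ⟨η, fun l => h2 _ ?_, fun c => ?_⟩
    · rw [← hη]
      exact Multiset.mem_map_of_mem _ (Finset.mem_univ_val l)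
    · rw [h4, ← hη, Multiset.map_map]
      rfl
  choose η h1 h2 using key
  exact ⟨η, h1, h2⟩

/-- the values of `χ` as a family of eigenvalues -/
noncomputable def cc (χ : GK K →* ℤˣ) (σ : HeightOneSpectrum (𝓞 K) → GK K)
    (v : HeightOneSpectrum (𝓞 K)) (_ : Fin 1) : ℂ := (((χ (σ v)⁻¹ : ℤˣ) : ℤ) : ℂ)

theorem cc_norm (χ : GK K →* ℤˣ) (σ : HeightOneSpectrum (𝓞 K) → GK K)
    (v : HeightOneSpectrum (𝓞 K)) (j : Fin 1) : ‖cc χ σ v j‖ = 1 := by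
  unfold cc
  rcases Int.units_eq_one_or (χ (σ v)⁻¹) with h | h <;> rw [h] <;> simp

theorem cc_real (χ : GK K →* ℤˣ) (σ : HeightOneSpectrum (𝓞 K) → GK K)
    (v : HeightOneSpectrum (𝓞 K)) (j : Fin 1) : conj (cc χ σ v j) = cc χ σ v j := by
  unfold cc
  simp

theorem cc_sq (χ : GK K →* ℤˣ) (σ : HeightOneSpectrum (𝓞 K) → GK K)
    (v : HeightOneSpectrum (𝓞 K)) (j : Fin 1) : cc χ σ v j * cc χ σ v j = 1 := by
  unfold cc
  rcases Int.units_eq_one_or (χ (σ v)⁻¹) with h | h <;> rw [h] <;> simp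

theorem det_twist (χ : GK K →* ℤˣ) (r : ℕ) {n' : ℕ} (ψ : Representation ℂ (GK K) (Fin n' → ℂ))
    {σ : HeightOneSpectrum (𝓞 K) → GK K} {η : HeightOneSpectrum (𝓞 K) → Fin n' → ℂ}
    (hη : ∀ v, ∀ c : ℂ, LinearMap.det (1 - c • ψ (σ v)⁻¹) = ∏ l, (1 - c * η v l))
    (v : HeightOneSpectrum (𝓞 K)) (c : ℂ) :
    LinearMap.det (1 - c • (twist χ r ψ) (σ v)⁻¹) =
      ∏ l, (1 - c * (cc χ σ v 0 ^ r * η v l)) := by
  have h1 : (twist χ r ψ) (σ v)⁻¹ = (cc χ σ v 0 ^ r) • ψ (σ v)⁻¹ := rfl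
  rw [h1, smul_smul, hη]
  exact Finset.prod_congr rfl fun l _ => by ring

theorem det_one (c : ℂ) (g : GK K) :
    LinearMap.det (1 - c • (1 : Representation ℂ (GK K) (Fin 1 → ℂ)) g) =
      ∏ _l : Fin 1, (1 - c * 1) := by
  have h2 : (1 - c • (1 : Representation ℂ (GK K) (Fin 1 → ℂ)) g) =
      (1 - c) • (1 : Module.End ℂ (Fin 1 → ℂ)) := by
    refine LinearMap.ext fun x => ?_
    have h1 : (1 : Representation ℂ (GK K) (Fin 1 → ℂ)) g x = x := rfl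
    rw [LinearMap.sub_apply, LinearMap.smul_apply, LinearMap.smul_apply, h1, sub_smul, one_smul]
    rfl
  rw [h2, LinearMap.det_smul]
  simp

variable {l : ℕ} {X : Set (MvPolynomial (Fin l) (𝓞 K))} {d i N : ℕ}

open Classical in
/-- the deviation in terms of power sums -/
theorem dev_eq {σ : HeightOneSpectrum (𝓞 K) → GK K} (hσ : ∀ v, IsFrob v (σ v))
    {S₀ : Finset (HeightOneSpectrum (𝓞 K))} (α : HeightOneSpectrum (𝓞 K) → Fin N → ℂ)
    {χ : GK K →* ℤˣ} {c : HeightOneSpectrum (𝓞 K) → ℤˣ}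
    (hc : ∀ v ∉ S₀, ∀ σ, IsFrob v σ → χ σ = c v) (m : ℤ) {S : Finset (HeightOneSpectrum (𝓞 K))}
    (hS : S₀ ⊆ S) (v : HeightOneSpectrum (𝓞 K)) (hv : v ∉ S) :
    dev S₀ α i c m v = ‖PS S (nrm i α) (v, 0) + m * PS S (cc χ σ) (v, 0)‖ := by
  have hv0 : v ∉ S₀ := fun h => hv (hS h)
  unfold dev PS pw
  rw [if_neg hv0]
  simp only [if_neg hv]
  congr 2
  · simp only [zero_add, pow_one]
    unfold nrm
    rw [← Finset.sum_mul, Complex.cpow_neg, div_eq_mul_inv]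
    rfl
  · simp only [zero_add, pow_one, Fin.isValue, Finset.univ_unique, Finset.sum_singleton]
    unfold cc
    rw [map_inv, hc v hv0 _ (hσ v)]
    rcases Int.units_eq_one_or (c v) with h | h <;> rw [h] <;> simp

open Classical in
theorem thin_iff {σ : HeightOneSpectrum (𝓞 K) → GK K} (hσ : ∀ v, IsFrob v (σ v))
    {S₀ : Finset (HeightOneSpectrum (𝓞 K))} (α : HeightOneSpectrum (𝓞 K) → Fin N → ℂ)
    {χ : GK K →* ℤˣ} {c : HeightOneSpectrum (𝓞 K) → ℤˣ}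
    (hc : ∀ v ∉ S₀, ∀ σ, IsFrob v σ → χ σ = c v) (m : ℤ) {S : Finset (HeightOneSpectrum (𝓞 K))}
    (hS : S₀ ⊆ S) (θ : ℝ) :
    (Summable fun v => dev S₀ α i c m v ^ 2 * (nm K v : ℝ) ^ (-θ)) ↔
      Summable fun v => ‖PS S (nrm i α) (v, 0) + m * PS S (cc χ σ) (v, 0)‖ ^ 2 *
        (nm K v : ℝ) ^ (-θ) := by
  have hev : ∀ᶠ v in cofinite, dev S₀ α i c m v ^ 2 * (nm K v : ℝ) ^ (-θ) =
      ‖PS S (nrm i α) (v, 0) + m * PS S (cc χ σ) (v, 0)‖ ^ 2 * (nm K v : ℝ) ^ (-θ) := by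
    rw [Filter.eventually_cofinite]
    refine S.finite_toSet.subset fun v hv => ?_
    by_contra h
    exact hv (by rw [dev_eq hσ α hc m hS v h])
  constructor
  · intro h
    exact h.congr_cofinite hev
  · intro h
    exact h.congr_cofinite (hev.mono fun v hv => hv.symm)

theorem count_dev {ι : Type*} {g q : ι → ℝ} (hg : ∀ v, 0 ≤ g v) (hq : ∀ v, 0 < q v) {θ : ℝ}
    (hθ : 0 ≤ θ) (hs : Summable fun v => g v ^ 2 * q v ^ (-θ)) {ε : ℝ} (hε : 0 < ε) :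
    ∃ C : ℝ, ∀ x : ℝ, 0 ≤ x → ∀ F : Finset ι, (∀ v ∈ F, q v ≤ x ∧ ε ≤ g v) →
      (F.card : ℝ) ≤ C * x ^ θ := by
  refine ⟨(∑' v, g v ^ 2 * q v ^ (-θ)) / ε ^ 2, fun x hx F hF => ?_⟩
  have hnn : ∀ v, 0 ≤ g v ^ 2 * q v ^ (-θ) := fun v =>
    mul_nonneg (sq_nonneg _) (Real.rpow_nonneg (hq v).le _)
  rcases F.eq_empty_or_nonempty with rfl | ⟨v0, hv0⟩
  · simp only [Finset.card_empty, Nat.cast_zero]
    exact mul_nonneg (div_nonneg (tsum_nonneg hnn) (sq_nonneg _)) (Real.rpow_nonneg hx _)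
  have hx0 : 0 < x := (hq v0).trans_le (hF v0 hv0).1
  have h1 : ∑ v ∈ F, ε ^ 2 * x ^ (-θ) ≤ ∑ v ∈ F, g v ^ 2 * q v ^ (-θ) := by
    refine Finset.sum_le_sum fun v hv => ?_
    obtain ⟨h2, h3⟩ := hF v hv
    exact mul_le_mul (pow_le_pow_left₀ hε.le h3 2)
      (Real.rpow_le_rpow_of_nonpos (hq v) h2 (by linarith)) (Real.rpow_nonneg hx _) (sq_nonneg _)
  have h2 := h1.trans (hs.sum_le_tsum F fun v _ => hnn v)
  rw [Finset.sum_const, nsmul_eq_mul, Real.rpow_neg hx0.le] at h2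
  have h4 : 0 < x ^ θ := Real.rpow_pos_of_pos hx0 _
  have h5 : (F.card : ℝ) * ε ^ 2 ≤ (∑' v, g v ^ 2 * q v ^ (-θ)) * x ^ θ := by
    have h7 : (F.card : ℝ) * (ε ^ 2 * (x ^ θ)⁻¹) * x ^ θ = F.card * ε ^ 2 := by
      field_simp
    rw [← h7]
    exact mul_le_mul_of_nonneg_right h2 h4.le
  rw [div_mul_eq_mul_div, le_div_iff₀ (by positivity)]
  exact h5

/-- **Continuation of all tensor powers.** -/
theorem cont (hi : i ≤ 2 * d) {σ : HeightOneSpectrum (𝓞 K) → GK K} (hσ : ∀ v, IsFrob v (σ v))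
    {S₀ : Finset (HeightOneSpectrum (𝓞 K))} {α : HeightOneSpectrum (𝓞 K) → Fin N → ℂ}
    (hα : ∀ v ∉ S₀, IsFrobenius X d i v (α v))
    {χ : GK K →* ℤˣ} {c : HeightOneSpectrum (𝓞 K) → ℤˣ}
    (hc : ∀ v ∉ S₀, ∀ σ, IsFrob v σ → χ σ = c v) {m : ℤ} {θ : ℝ} (hθ : 1 / 2 ≤ θ)
    (hs : Summable fun v => dev S₀ α i c m v ^ 2 * (nm K v : ℝ) ^ (-θ))
    {r n' : ℕ} {ψ : Representation ℂ (GK K) (Fin n' → ℂ)} (hψ : IsArtin ψ)
    {B B' : HeightOneSpectrum (𝓞 K) → ℂ[X]} (hB : IsPowerSystem X d i N r ψ B)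
    (hB' : IsPowerSystem X d i N 0 (twist χ r ψ) B') :
    ∃ S : Finset (HeightOneSpectrum (𝓞 K)), ∃ H : ℂ → ℂ,
      DifferentiableOn ℂ H {s : ℂ | r * ((i : ℝ) / 2) + (1 + θ) / 2 < s.re} ∧ (∀ s, H s ≠ 0) ∧
      ∀ s : ℂ, r * ((i : ℝ) / 2) + 1 < s.re →
        LPart S B s = H s * LPart S B' (s - r * ((i : ℂ) / 2)) ^ ((-m) ^ r) := by
  classical
  have hN : NormSys (nm K) := normSys
  obtain ⟨η, hη1, hη⟩ := exists_eta ψ hψ σ
  obtain ⟨S₁, h1, h2⟩ := sys hi hσ hα r ψ B hB hη1 hη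
  obtain ⟨S₂, h3, h4⟩ := sys hi hσ hα 0 (twist χ r ψ) B' hB'
    (η := fun v l => cc χ σ v 0 ^ r * η v l)
    (fun v l => by rw [norm_mul, norm_pow, cc_norm, one_pow, one_mul, hη1]) (det_twist χ r ψ hη)
  set S := S₁ ∪ S₂ with hSdef
  have hS0 : S₀ ⊆ S := h1.trans Finset.subset_union_left
  have g1 := fun s hs => (h2 S Finset.subset_union_left s hs).1
  have g2 := fun s hs => (h4 S Finset.subset_union_right s hs).1
  have hgood : ∀ v ∉ S, Eig X d i v (α v) := fun v hv => hα v fun h => hv (hS0 h)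
  have e1 : ∀ x : HeightOneSpectrum (𝓞 K) × ℕ,
      PS S (nrm i α) x ^ 0 * PS S (fun v l => cc χ σ v 0 ^ r * η v l) x =
        PS S (cc χ σ) x ^ r * PS S η x := by
    intro x
    rw [pow_zero, one_mul]
    unfold PS pw
    by_cases hx : x.1 ∈ S
    · simp [hx]
    · simp only [if_neg hx, Finset.univ_unique, Finset.sum_singleton, mul_pow]
      rw [← Finset.mul_sum]
      congr 1
      rw [← pow_mul, ← pow_mul, mul_comm]
      rfl
  simp only [e1] at g2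
  have hb1 : ∀ x, ‖PS S (nrm i α) x‖ ≤ N + 1 + n' := fun x =>
    (PS_le (fun v hv j => nrm_one (hgood v hv) j) x).trans (by
      have : (0 : ℝ) ≤ n' := Nat.cast_nonneg _
      linarith)
  have hb2 : ∀ x, ‖PS S (cc χ σ) x‖ ≤ N + 1 + n' := fun x =>
    (PS_le (fun v _ j => cc_norm χ σ v j) x).trans (by
      have : (0 : ℝ) ≤ n' := Nat.cast_nonneg _
      have : (0 : ℝ) ≤ N := Nat.cast_nonneg _
      push_cast
      linarith)
  have hb3 : ∀ x, ‖PS S η x‖ ≤ N + 1 + n' := fun x =>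
    (PS_le (fun v _ j => hη1 v j) x).trans (by
      have : (0 : ℝ) ≤ N := Nat.cast_nonneg _
      linarith)
  obtain ⟨H, k1, k2, k3⟩ := pow_formula hN hb1 hb2 hb3 (m := m) hθ
    ((thin_iff hσ α hc m hS0 θ).1 hs) r
  refine ⟨S, fun s => H (s - r * ((i : ℂ) / 2)), ?_, fun s => k2 _, fun s hs => ?_⟩
  · have hmap : ∀ s ∈ {s : ℂ | r * ((i : ℝ) / 2) + (1 + θ) / 2 < s.re},
        s - r * ((i : ℂ) / 2) ∈ {s : ℂ | (1 + θ) / 2 < s.re} := by
      intro s hs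
      simp only [Set.mem_setOf_eq] at hs ⊢
      have : (s - r * ((i : ℂ) / 2)).re = s.re - r * ((i : ℝ) / 2) := by
        have h5 : (r : ℂ) * ((i : ℂ) / 2) = ((r * ((i : ℝ) / 2) : ℝ) : ℂ) := by push_cast; ring
        rw [h5, Complex.sub_re, Complex.ofReal_re]
      rw [this]
      linarith
    exact k1.comp (by fun_prop) hmap
  · have hs' : 1 < (s - r * ((i : ℂ) / 2)).re := by
      have : (s - r * ((i : ℂ) / 2)).re = s.re - r * ((i : ℝ) / 2) := by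
        have h5 : (r : ℂ) * ((i : ℂ) / 2) = ((r * ((i : ℝ) / 2) : ℝ) : ℂ) := by push_cast; ring
        rw [h5, Complex.sub_re, Complex.ofReal_re]
      rw [this]
      linarith
    have a1 := g1 _ hs'
    have a2 := g2 _ hs'
    have a3 := k3 _ hs'
    rw [sub_add_cancel] at a1
    simp only [Nat.cast_zero, zero_mul, add_zero] at a2
    rw [a1, a2, a3]

end

end Pool.Agent.Y853.TZ
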