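import Pool.Agent.Y853.TZ.Eul
import Pool.Agent.Y853.TZ.Defs
import Pool.Agent.Y139.SM.Gen

/-! The Euler products of the tensor powers of `H^i(X)`. -/

set_option autoImplicit false

namespace Pool.Agent.Y853.TZ

open Complex Filter Topology ComplexConjugate NumberField IsDedekindDomain
  Pool.Agent.W401.Cheb Pool.Agent.W540.BE Pool.Agent.Y792.FL Polynomial Pool.Agent.Y853.OP
open Pool.Agent.W353.EF (LFun IsFrobenius)
open Pool.Agent.W353.EH (edgePoint HasOrder)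
open Pool.Agent.W353.PV (Eig pick pick_spec)
open Pool.Agent.Y139.SM (IsPowerSystem prods prods_sum prods_prod)

section
variable {K : Type} [Field K] [NumberField K] {l : ℕ} {X : Set (MvPolynomial (Fin l) (𝓞 K))}
  {d i N : ℕ}

/-- normalised eigenvalues -/
noncomputable def nrm (i : ℕ) (α : HeightOneSpectrum (𝓞 K) → Fin N → ℂ)
    (v : HeightOneSpectrum (𝓞 K)) (j : Fin N) : ℂ :=
  α v j * ((nm K v : ℕ) : ℂ) ^ (-((i : ℂ) / 2))

open Classical in
/-- power sums at `v^k` outside `S` -/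
noncomputable def PS {n : ℕ} (S : Finset (HeightOneSpectrum (𝓞 K)))
    (a : HeightOneSpectrum (𝓞 K) → Fin n → ℂ) (x : HeightOneSpectrum (𝓞 K) × ℕ) : ℂ :=
  if x.1 ∈ S then 0 else pw (a x.1) (x.2 + 1)

open Classical in
theorem coef_PS {n : ℕ} (S : Finset (HeightOneSpectrum (𝓞 K)))
    (a : HeightOneSpectrum (𝓞 K) → Fin n → ℂ) : coef (nm K) S a 0 = PS S a := by
  funext x
  unfold coef PS
  by_cases h : x.1 ∈ S
  · rw [if_pos h, if_pos h]
  · rw [if_neg h, if_neg h]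
    simp

theorem pw_prods (r : ℕ) {n : ℕ} (b : Fin n → ℂ) (k : ℕ) : pw (prods r b) k = (pw b k) ^ r := by
  unfold pw
  have h : ∀ y, prods r b y ^ k = prods r (fun j => b j ^ k) y := fun y => by
    unfold prods
    rw [Finset.prod_pow]
  rw [Finset.sum_congr rfl fun y _ => h y, prods_sum]

theorem pw_le {n : ℕ} {b : Fin n → ℂ} (h : ∀ j, ‖b j‖ = 1) (k : ℕ) : ‖pw b k‖ ≤ n := by
  unfold pw
  refine (norm_sum_le _ _).trans ?_
  rw [Finset.sum_congr rfl fun j _ => by rw [norm_pow, h j, one_pow]]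
  simp

theorem PS_le {n : ℕ} {S : Finset (HeightOneSpectrum (𝓞 K))}
    {a : HeightOneSpectrum (𝓞 K) → Fin n → ℂ} (h : ∀ v ∉ S, ∀ j, ‖a v j‖ = 1)
    (x : HeightOneSpectrum (𝓞 K) × ℕ) : ‖PS S a x‖ ≤ n := by
  unfold PS
  split_ifs with hx
  · simp
  · exact pw_le (h _ hx) _

theorem nm_ne (v : HeightOneSpectrum (𝓞 K)) : ((nm K v : ℕ) : ℂ) ≠ 0 := by
  have := two_le_nm v
  exact_mod_cast (by omega : nm K v ≠ 0)

theorem nrm_one {α : HeightOneSpectrum (𝓞 K) → Fin N → ℂ} {v : HeightOneSpectrum (𝓞 K)}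
    (h : Eig X d i v (α v)) (j : Fin N) : ‖nrm i α v j‖ = 1 := by
  unfold nrm
  have h1 : ‖α v j‖ = (nm K v : ℝ) ^ ((i : ℝ) / 2) := h.norm j
  have h0 : 0 < nm K v := by
    have := two_le_nm v
    omega
  have h0' : (0 : ℝ) < nm K v := by exact_mod_cast h0
  rw [norm_mul, h1, Complex.norm_natCast_cpow_of_pos h0, ← Real.rpow_add h0']
  have : (i : ℝ) / 2 + (-((i : ℂ) / 2)).re = 0 := by
    have h2 : ((i : ℂ) / 2) = (((i : ℝ) / 2 : ℝ) : ℂ) := by push_cast; ring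
    rw [h2, ← Complex.ofReal_neg, Complex.ofReal_re]
    ring
  rw [this, Real.rpow_zero]

/-- the power sums do not depend on the choice of the eigenvalues -/
theorem pw_unique (hi : i ≤ 2 * d) {α β : HeightOneSpectrum (𝓞 K) → Fin N → ℂ}
    {v : HeightOneSpectrum (𝓞 K)} (h : Eig X d i v (α v)) (h' : Eig X d i v (β v)) (k : ℕ) :
    pw (nrm i α v) k = pw (nrm i β v) k := by
  have h1 := h.unique' hi h'
  have h2 := congrArg (fun s : Multiset ℂ =>
    (s.map fun z => (z * ((nm K v : ℕ) : ℂ) ^ (-((i : ℂ) / 2))) ^ k).sum) h1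
  simp only [Multiset.map_map] at h2
  exact h2

/-- the power sums are real -/
theorem pw_real (hi : i ≤ 2 * d) {α : HeightOneSpectrum (𝓞 K) → Fin N → ℂ}
    {v : HeightOneSpectrum (𝓞 K)} (h : Eig X d i v (α v)) (k : ℕ) :
    conj (pw (nrm i α v) k) = pw (nrm i α v) k := by
  have h1 := pw_unique hi (α := fun v j => conj (α v j)) (β := α) h.conj h k
  refine Eq.trans ?_ h1
  unfold pw nrm
  rw [map_sum]
  refine Finset.sum_congr rfl fun j _ => ?_
  rw [map_pow, map_mul]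
  congr 2
  have h2 : ((nm K v : ℕ) : ℂ).arg ≠ Real.pi := by
    rw [Complex.natCast_arg]
    exact Real.pi_ne_zero.symm
  have h3 := Complex.cpow_conj ((nm K v : ℕ) : ℂ) (-((i : ℂ) / 2) : ℂ) h2
  rw [Complex.conj_natCast] at h3
  rw [← h3]
  congr 1
  rw [map_neg, map_div₀, Complex.conj_natCast, Complex.conj_ofNat]

/-- **The Euler product of a tensor power.** -/
theorem sys (hi : i ≤ 2 * d) {σ : HeightOneSpectrum (𝓞 K) → GK K} (hσ : ∀ v, IsFrob v (σ v))
    {S₀ : Finset (HeightOneSpectrum (𝓞 K))} {α : HeightOneSpectrum (𝓞 K) → Fin N → ℂ}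
    (hα : ∀ v ∉ S₀, IsFrobenius X d i v (α v)) (r : ℕ) {n' : ℕ}
    (ψ : Representation ℂ (GK K) (Fin n' → ℂ)) (B : HeightOneSpectrum (𝓞 K) → ℂ[X])
    (hB : IsPowerSystem X d i N r ψ B) {η : HeightOneSpectrum (𝓞 K) → Fin n' → ℂ}
    (hη1 : ∀ v l, ‖η v l‖ = 1)
    (hη : ∀ v, ∀ c : ℂ, LinearMap.det (1 - c • ψ (σ v)⁻¹) = ∏ l, (1 - c * η v l)) :
    ∃ S' : Finset (HeightOneSpectrum (𝓞 K)), S₀ ⊆ S' ∧ ∀ S, S' ⊆ S → ∀ s : ℂ, 1 < s.re →
      LPart S B (s + r * ((i : ℂ) / 2)) =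
        cexp (Z (nm K) (fun x => PS S (nrm i α) x ^ r * PS S η x) s) ∧
      LFun B (s + r * ((i : ℂ) / 2)) = (∏ v ∈ S, ((B v).eval
        (((nm K v : ℕ) : ℂ) ^ (-(s + r * ((i : ℂ) / 2)))))⁻¹) *
        cexp (Z (nm K) (fun x => PS S (nrm i α) x ^ r * PS S η x) s) := by
  classical
  have hN : NormSys (nm K) := normSys
  set β : HeightOneSpectrum (𝓞 K) → Fin N → ℂ := fun v =>
    pick fun α => Eig X d i v α ∧ ∀ σ, IsFrob v σ → ∀ z : ℂ, (B v).eval z =
      ∏ f : Fin r → Fin N, LinearMap.det (1 - ((∏ j, α (f j)) * z) • ψ σ⁻¹) with hβ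
  have hb : ∀ᶠ v in cofinite, Eig X d i v (β v) ∧
      ∀ σ, IsFrob v σ → ∀ z : ℂ, (B v).eval z =
        ∏ f : Fin r → Fin N, LinearMap.det (1 - ((∏ j, β v (f j)) * z) • ψ σ⁻¹) :=
    hB.1.mono fun v hv => pick_spec hv
  have hfin : {v | ¬ (Eig X d i v (β v) ∧
      ∀ σ, IsFrob v σ → ∀ z : ℂ, (B v).eval z =
        ∏ f : Fin r → Fin N, LinearMap.det (1 - ((∏ j, β v (f j)) * z) • ψ σ⁻¹))}.Finite := by
    rwa [Filter.eventually_cofinite] at hb
  refine ⟨S₀ ∪ hfin.toFinset, Finset.subset_union_left, fun S hS s hs => ?_⟩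
  have hgood : ∀ v ∉ S, Eig X d i v (α v) ∧ Eig X d i v (β v) ∧
      ∀ σ, IsFrob v σ → ∀ z : ℂ, (B v).eval z =
        ∏ f : Fin r → Fin N, LinearMap.det (1 - ((∏ j, β v (f j)) * z) • ψ σ⁻¹) := by
    intro v hv
    have h1 : v ∉ S₀ := fun h => hv (hS (Finset.mem_union_left _ h))
    have h2 : v ∉ hfin.toFinset := fun h => hv (hS (Finset.mem_union_right _ h))
    rw [Set.Finite.mem_toFinset] at h2
    simp only [Set.mem_setOf_eq, not_not] at h2
    exact ⟨hα v h1, h2⟩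
  set γ : HeightOneSpectrum (𝓞 K) → Fin (N ^ r) → ℂ := fun v => prods r (nrm i β v) with hγ
  set δ : HeightOneSpectrum (𝓞 K) → Fin n' → ℂ := fun v l => conj (η v l) with hδ
  set ρ : HeightOneSpectrum (𝓞 K) → ℂ := fun v => (((nm K v : ℕ) : ℂ) ^ (-((i : ℂ) / 2))) ^ r
    with hρ
  set B' : HeightOneSpectrum (𝓞 K) → ℂ[X] := fun v => (B v).comp (C (ρ v) * Polynomial.X) with hB'
  have hγ1 : ∀ v ∉ S, ∀ y, ‖γ v y‖ = 1 := by
    intro v hv y
    rw [hγ]
    simp only [prods]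
    rw [norm_prod]
    exact Finset.prod_eq_one fun j _ => nrm_one (hgood v hv).2.1 _
  have hδ1 : ∀ v, ∀ y, ‖δ v y‖ = 1 := by
    intro v y
    rw [hδ]
    simp only
    rw [Complex.norm_conj]
    exact hη1 v y
  have hBe : ∀ v ∉ S, ∀ z : ℂ, (B v).eval (ρ v * z) = ∏ j, ∏ l, (1 - γ v j * conj (δ v l) * z) := by
    intro v hv z
    rw [(hgood v hv).2.2 (σ v) (hσ v)]
    rw [← prods_prod (β v) (fun y => LinearMap.det (1 - (y * (ρ v * z)) • ψ (σ v)⁻¹))]
    refine Finset.prod_congr rfl fun y _ => ?_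
    rw [hη]
    refine Finset.prod_congr rfl fun m _ => ?_
    have h3 : γ v y = prods r (β v) y * ρ v := by
      rw [hγ, hρ]
      simp only [prods, nrm]
      rw [Finset.prod_mul_distrib, Finset.prod_const, Finset.card_univ, Fintype.card_fin]
    rw [h3, hδ]
    simp only [Complex.conj_conj]
    ring
  have hB'e : ∀ v ∉ S, ∀ z : ℂ, (B' v).eval z = ∏ j, ∏ l, (1 - γ v j * conj (δ v l) * z) := by
    intro v hv z
    rw [hB']
    simp only [eval_comp, eval_mul, eval_C, eval_X]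
    exact hBe v hv z
  have hbd : ∀ v ∉ S, ∀ j l, ‖γ v j‖ * ‖δ v l‖ < nm K v := by
    intro v hv j l
    rw [hγ1 v hv, hδ1, mul_one]
    have := two_le_nm v
    exact_mod_cast (by omega : 1 < nm K v)
  have hγ2 : ∀ σ : ℝ, 1 < σ → L2 (wt (nm K) σ) (coef (nm K) S γ 0) := by
    intro σ h
    rw [coef_PS]
    exact bdd_L2 hN (PS_le hγ1) h
  have hδ2 : ∀ σ : ℝ, 1 < σ → L2 (wt (nm K) σ) (coef (nm K) S δ 0) := by
    intro σ h
    rw [coef_PS]
    exact bdd_L2 hN (PS_le fun v _ => hδ1 v) h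
  have hE : E (nm K) (coef (nm K) S γ 0) (coef (nm K) S δ 0) s =
      cexp (Z (nm K) (fun x => PS S (nrm i α) x ^ r * PS S η x) s) := by
    unfold E
    congr 2
    funext x
    rw [coef_PS, coef_PS]
    unfold PS
    by_cases hx : x.1 ∈ S
    · simp [hx]
    · rw [if_neg hx, if_neg hx, if_neg hx, if_neg hx, hγ]
      simp only
      rw [pw_prods, pw_unique hi (hgood _ hx).1 (hgood _ hx).2.1]
      congr 1
      unfold pw
      rw [map_sum, hδ]
      refine Finset.sum_congr rfl fun j _ => ?_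
      simp
  have hpow : ∀ v : HeightOneSpectrum (𝓞 K), ((Ideal.absNorm v.asIdeal : ℕ) : ℂ) ^
      (-(s + r * ((i : ℂ) / 2))) = ρ v * ((nm K v : ℕ) : ℂ) ^ (-s) := by
    intro v
    rw [hρ]
    simp only
    rw [← Complex.cpow_nat_mul, ← Complex.cpow_add _ _ (nm_ne v)]
    congr 1
    ring
  constructor
  · rw [← hE, ← euler hN hbd hγ2 hδ2 hs]
    unfold LPart
    refine tprod_congr fun v => ?_
    by_cases hv : v ∈ S
    · rw [if_pos hv, if_pos hv]
    · rw [if_neg hv, if_neg hv, hpow, hBe v hv, ← Finset.prod_inv_distrib]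
      refine Finset.prod_congr rfl fun j _ => ?_
      rw [← Finset.prod_inv_distrib]
  · have h1 := euler_full hN hbd hγ2 hδ2 B' hB'e hs
    rw [← hE]
    have h2 : ∀ v, (B' v).eval (((nm K v : ℕ) : ℂ) ^ (-s)) =
        (B v).eval (((Ideal.absNorm v.asIdeal : ℕ) : ℂ) ^ (-(s + r * ((i : ℂ) / 2)))) := by
      intro v
      rw [hB']
      simp only [eval_comp, eval_mul, eval_C, eval_X]
      rw [hpow]
    unfold LFun
    rw [tprod_congr (fun v => by rw [h2 v])] at h1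
    rw [h1]
    congr 1
    exact Finset.prod_congr rfl fun v _ => by rw [h2 v]; rfl

end

end Pool.Agent.Y853.TZ
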