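import Pool.Agent.Y853.TZ.Sys
import Pool.Agent.Y773.AB.Res
import Pool.Agent.Y772.NZ.Zeta
import Pool.Agent.H484R2.Zeta
import Pool.Agent.H332R2.PIT.Analytic

/-! The Dedekind zeta function near `1`, and the orders of the tensor powers. -/

set_option autoImplicit false

namespace Pool.Agent.Y853.TZ

open Complex Filter Topology ComplexConjugate NumberField IsDedekindDomain
  Pool.Agent.W401.Cheb Pool.Agent.W540.BE Pool.Agent.Y792.FL Polynomial Pool.Agent.Y853.OP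
open Pool.Agent.W353.EF (LFun IsFrobenius)
open Pool.Agent.W353.EH (edgePoint HasOrder)
open Pool.Agent.W353.PV (Eig pick pick_spec)
open Pool.Agent.Y139.SM (IsPowerSystem prods prods_sum prods_prod)

section
variable {K : Type} [Field K] [NumberField K]

theorem zeta_tprod {s : ℂ} (hs : 1 < s.re) :
    ∏' v : HeightOneSpectrum (𝓞 K), (1 - ((nm K v : ℕ) : ℂ) ^ (-s))⁻¹ = dedekindZeta K s := by
  have h1 := Pool.Agent.Y773.AB.hasProd_prime (K := K) (ψ := Pool.Agent.Y772.NZ.one K)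
    (Pool.Agent.Y772.NZ.one_norm K) hs
  rw [Pool.Agent.Y772.NZ.LI_one K hs] at h1
  let e : HeightOneSpectrum (𝓞 K) → {𝔭 : Ideal (𝓞 K) // Prime 𝔭} := fun v => ⟨v.asIdeal, v.prime⟩
  have he : Function.Bijective e := by
    constructor
    · intro v w h
      exact HeightOneSpectrum.ext (congrArg Subtype.val h)
    · rintro ⟨p, hp⟩
      exact ⟨⟨p, Ideal.isPrime_of_prime hp, hp.ne_zero⟩, rfl⟩
  have h2 := (Equiv.ofBijective e he).hasProd_iff.2 h1
  rw [← h2.tprod_eq]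
  refine tprod_congr fun v => ?_
  have h3 : Pool.Agent.Y772.NZ.one K v.asIdeal = 1 := Pool.Agent.Y772.NZ.one_ne K v.ne_bot
  have h4 : ((Equiv.ofBijective e he) v : Ideal (𝓞 K)) = v.asIdeal := rfl
  simp only [Function.comp, h4, h3, one_mul]
  rfl

theorem analyticAt_cpow (v : HeightOneSpectrum (𝓞 K)) (w z : ℂ) :
    AnalyticAt ℂ (fun s : ℂ => ((nm K v : ℕ) : ℂ) ^ (-(s + w))) z := by
  have hd : Differentiable ℂ fun s : ℂ => ((nm K v : ℕ) : ℂ) ^ (-(s + w)) := by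
    intro s
    exact DifferentiableAt.const_cpow (by fun_prop) (Or.inl (nm_ne v))
  exact hd.analyticAt _

theorem loc_dedekind : Loc (dedekindZeta K) (-1) := by
  obtain ⟨g, h1, h2⟩ := Pool.Agent.H484R2.continuation (K := K) 0
  have h3 := H332.PIT.cont_zero_ne h1 h2
  have e1 : (1 : ℂ) + ((0 : ℝ) : ℂ) * I = 1 := by simp
  rw [e1] at h1 h2 h3
  refine ⟨g, h1, h3, ?_⟩
  filter_upwards [h2] with s h4 h5
  rw [h4 h5, zpow_neg_one, ← mul_assoc, inv_mul_cancel₀ (ne_of_re h5), one_mul]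

/-- the factors of the zeta function at finitely many primes -/
noncomputable def hz (S : Finset (HeightOneSpectrum (𝓞 K))) (s : ℂ) : ℂ :=
  ∏ v ∈ S, (1 - ((nm K v : ℕ) : ℂ) ^ (-(s + 0)))

theorem hz_an (S : Finset (HeightOneSpectrum (𝓞 K))) : AnalyticAt ℂ (hz S) 1 :=
  Finset.analyticAt_fun_prod _ fun v _ => analyticAt_const.sub (analyticAt_cpow v 0 1)

theorem hz_ne (S : Finset (HeightOneSpectrum (𝓞 K))) {s : ℂ} (hs : 1 ≤ s.re) : hz S s ≠ 0 := by
  unfold hz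
  rw [Finset.prod_ne_zero_iff]
  intro v _ h0
  have h5 : ‖((nm K v : ℕ) : ℂ) ^ (-(s + 0))‖ = 1 := by
    have : ((nm K v : ℕ) : ℂ) ^ (-(s + 0)) = 1 := by linear_combination -h0
    rw [this, norm_one]
  have h6 := two_le_nm v
  rw [Complex.norm_natCast_cpow_of_pos (by omega)] at h5
  have h7 : (nm K v : ℝ) ^ (-(s + 0)).re < 1 := by
    refine Real.rpow_lt_one_of_one_lt_of_neg (by exact_mod_cast (by omega : 1 < nm K v)) ?_
    simp
    linarith
  linarith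

/-- the zeta function without finitely many factors -/
theorem zeta_exp (S : Finset (HeightOneSpectrum (𝓞 K))) {s : ℂ} (hs : 1 < s.re) :
    cexp (Z (nm K) (fun x => PS S (fun _ (_ : Fin 1) => (1 : ℂ)) x) s) =
      hz S s * dedekindZeta K s := by
  classical
  have hN : NormSys (nm K) := normSys
  set a : HeightOneSpectrum (𝓞 K) → Fin 1 → ℂ := fun _ _ => 1 with ha
  have hb : ∀ v ∉ S, ∀ j l, ‖a v j‖ * ‖a v l‖ < nm K v := by
    intro v _ j l
    rw [ha]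
    simp only [norm_one, mul_one]
    have := two_le_nm v
    exact_mod_cast (by omega : 1 < nm K v)
  have h2 : ∀ σ : ℝ, 1 < σ → L2 (wt (nm K) σ) (coef (nm K) S a 0) := by
    intro σ h
    rw [coef_PS]
    exact bdd_L2 hN (PS_le fun v _ j => by rw [ha]; simp) h
  have h3 := euler_full hN hb h2 h2 (fun _ => 1 - Polynomial.X) (fun v _ z => by
    rw [ha]
    simp) hs
  have h4 : E (nm K) (coef (nm K) S a 0) (coef (nm K) S a 0) s =
      cexp (Z (nm K) (fun x => PS S a x) s) := by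
    unfold E
    congr 2
    funext x
    rw [coef_PS]
    unfold PS pw
    by_cases hx : x.1 ∈ S
    · simp [hx]
    · simp [hx, ha]
  rw [h4] at h3
  simp only [eval_sub, eval_one, eval_X] at h3
  rw [zeta_tprod hs] at h3
  have hne := hz_ne S (s := s) hs.le
  have h5 : ∏ v ∈ S, (1 - ((nm K v : ℕ) : ℂ) ^ (-s))⁻¹ = (hz S s)⁻¹ := by
    unfold hz
    rw [Finset.prod_inv_distrib]
    simp only [add_zero]
  rw [h3, h5, ← mul_assoc, mul_inv_cancel₀ hne, one_mul]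

theorem loc_zeta (S : Finset (HeightOneSpectrum (𝓞 K))) :
    Loc (fun s => cexp (Z (nm K) (fun x => PS S (fun _ (_ : Fin 1) => (1 : ℂ)) x) s)) (-1) := by
  rw [loc_mul_iff (hz_an S) (hz_ne S (by simp)) fun s hs => zeta_exp S hs]
  exact loc_dedekind

variable {l : ℕ} {X : Set (MvPolynomial (Fin l) (𝓞 K))} {d i N : ℕ}

/-- the factors at finitely many primes -/
noncomputable def hb (B : HeightOneSpectrum (𝓞 K) → ℂ[X]) (w : ℂ)
    (S : Finset (HeightOneSpectrum (𝓞 K))) (s : ℂ) : ℂ :=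
  ∏ v ∈ S, ((B v).eval (((nm K v : ℕ) : ℂ) ^ (-(s + w))))⁻¹

theorem edge_eq (r : ℕ) (i : ℕ) : edgePoint (r * i) 0 = 1 + r * ((i : ℂ) / 2) := by
  unfold edgePoint
  push_cast
  ring

theorem hb_ne {r : ℕ} {n' : ℕ} {ψ : Representation ℂ (GK K) (Fin n' → ℂ)}
    {B : HeightOneSpectrum (𝓞 K) → ℂ[X]} (hB : IsPowerSystem X d i N r ψ B)
    (S : Finset (HeightOneSpectrum (𝓞 K))) : hb B (r * ((i : ℂ) / 2)) S 1 ≠ 0 := by
  unfold hb
  rw [Finset.prod_ne_zero_iff]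
  intro v _
  refine inv_ne_zero ?_
  have := hB.2 v
  rw [edge_eq] at this
  exact this

theorem hb_an {r : ℕ} {n' : ℕ} {ψ : Representation ℂ (GK K) (Fin n' → ℂ)}
    {B : HeightOneSpectrum (𝓞 K) → ℂ[X]} (hB : IsPowerSystem X d i N r ψ B)
    (S : Finset (HeightOneSpectrum (𝓞 K))) : AnalyticAt ℂ (hb B (r * ((i : ℂ) / 2)) S) 1 := by
  refine Finset.analyticAt_fun_prod _ fun v _ => ?_
  refine AnalyticAt.inv ?_ ?_
  · exact AnalyticAt.comp' (g := fun z => (B v).eval z) ((B v).differentiable.analyticAt _)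
      (analyticAt_cpow v _ 1)
  · have := hB.2 v
    rw [edge_eq] at this
    exact this

/-- **The order at the edge.** -/
theorem order_sys {r : ℕ} {n' : ℕ} {ψ : Representation ℂ (GK K) (Fin n' → ℂ)}
    {B : HeightOneSpectrum (𝓞 K) → ℂ[X]} (hB : IsPowerSystem X d i N r ψ B)
    (S : Finset (HeightOneSpectrum (𝓞 K))) {G : ℂ → ℂ}
    (hG : ∀ s : ℂ, 1 < s.re → LFun B (s + r * ((i : ℂ) / 2)) =
      hb B (r * ((i : ℂ) / 2)) S s * G s) (k : ℤ) :
    HasOrder (r * i) 0 B k ↔ Loc G k := by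
  have hw : (((((r * i : ℕ) : ℝ) / 2 : ℝ)) : ℂ) = r * ((i : ℂ) / 2) := by push_cast; ring
  have he : edgePoint (r * i) 0 = 1 + (((((r * i : ℕ) : ℝ) / 2 : ℝ)) : ℂ) := by
    rw [edge_eq, hw]
  unfold HasOrder
  rw [he, order_shift (LFun B) (((r * i : ℕ) : ℝ) / 2) k, hw]
  exact loc_mul_iff (hb_an hB S) (hb_ne hB S) hG

/-- continuation to a neighbourhood of `1` -/
theorem cont_mul_iff {F G h : ℂ → ℂ} (ha : AnalyticAt ℂ h 1) (h0 : h 1 ≠ 0)
    (hFG : ∀ s : ℂ, 1 < s.re → F s = h s * G s) :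
    (∃ R : ℂ → ℂ, AnalyticAt ℂ R 1 ∧ ∀ᶠ s in 𝓝 (1 : ℂ), 1 < s.re → R s = F s) ↔
      ∃ R : ℂ → ℂ, AnalyticAt ℂ R 1 ∧ ∀ᶠ s in 𝓝 (1 : ℂ), 1 < s.re → R s = G s := by
  constructor
  · rintro ⟨R, h1, h2⟩
    refine ⟨fun s => R s * (h s)⁻¹, h1.mul (ha.inv h0), ?_⟩
    filter_upwards [h2, ha.continuousAt.eventually_ne h0] with s h3 h4 h5
    rw [h3 h5, hFG s h5, mul_comm (h s), mul_assoc, mul_inv_cancel₀ h4, mul_one]
  · rintro ⟨R, h1, h2⟩
    refine ⟨fun s => h s * R s, ha.mul h1, ?_⟩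
    filter_upwards [h2] with s h3 h5
    rw [h3 h5, hFG s h5]

end

end Pool.Agent.Y853.TZ
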